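import Mathlib
import Pool.Agent.TH504.CB.PeriodDefs

/-!
# Products of abelian varieties with an arbitrary variety and absolute Hodge classes: definitions
-/

set_option autoImplicit false

namespace Pool.Agent.U46.K3

open Module Pool.Agent.H204R3.CM Pool.Agent.TH504.CB Pool.Agent.TH131.GHC Pool.Agent.W437.HC
  Pool.Agent.W437.HD Pool.Agent.TH504.VL Pool.Agent.TH504.VY

/-- The space `abs` contains the exterior products of the combinations of products of divisor classes on
the complex torus and the elements of `absY`. -/
def ContainsCross {W T : Type} [AddCommGroup W] [Module ℚ W] [AddCommGroup T] [Module ℂ T]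
    (per : W →+ T) {v : ℕ} (absY : Submodule ℚ (Fin v → ℚ)) (abs : Submodule ℚ (HAZ W v)) : Prop :=
  ∀ k : ℕ, ∀ f ∈ divisorSpan per k, ∀ y ∈ absY, cross f y ∈ abs

/-- Let `V` be the cohomology of a variety `Y`. If all Hodge classes on `Y` are absolute Hodge classes
(elements of `absY`) then all Hodge classes on the product of the complex torus and `Y` are absolute Hodge
classes (elements of `abs`). All that is used is that the exterior products of products of divisor classes
and absolute Hodge classes on `Y` are absolute Hodge classes. -/
def AbsoluteOnTimes {W T : Type} [AddCommGroup W] [Module ℚ W] [AddCommGroup T] [Module ℂ T]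
    (per : W →+ T) {v : ℕ} (V : Coh v) : Prop :=
  ∀ (absY : Submodule ℚ (Fin v → ℚ)) (abs : Submodule ℚ (HAZ W v)), ContainsCross per absY abs →
    (∀ y, IsHodgeOn V y → y ∈ absY) → ∀ F, IsHodgeOnProduct per V F → F ∈ abs

/-- The abelian variety `A` with period matrix `Z` is good for `Y`: for all `n` the Hodge classes on
`A ^ n × Y` are the sums of products of a combination of products of divisor classes on `A ^ n` and a Hodge
class on `Y`, and `AbsoluteOnTimes` holds for `A ^ n`. -/
def IsGoodAbelian {g v : ℕ} (Z : Matrix (Fin g) (Fin g) ℂ) (V : Coh v) : Prop :=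
  ∀ n : ℕ, HodgeClassesOnTimes Z n V ∧ AbsoluteOnTimes (perPow Z n) V

/-- The abelian variety is good for all `Y` with Hodge operator over `K`. -/
def IsGoodAbelianOver {g : ℕ} (K : Subfield ℂ) (Z : Matrix (Fin g) (Fin g) ℂ) : Prop :=
  ∀ (v : ℕ) (V : Coh v), (∀ a b, V.z a b ∈ K) → IsGoodAbelian Z V

end Pool.Agent.U46.K3
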