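import Mathlib
import Pool.Agent.U46.EX11
import Pool.Agent.U46.K3.AbDefs

/-!
# The exceptional members of a family of abelian varieties
-/

set_option autoImplicit false
set_option maxHeartbeats 400000

namespace Pool.Agent.U46.K3

open Matrix Module Pool.Agent.Y90 Pool.Agent.R915 Pool.Agent.H204R3.CM Pool.Agent.W437.HC
  Pool.Agent.W437.HD Pool.Agent.W437.HP Pool.Agent.TH504.VL Pool.Agent.TH504.VY
  Pool.Agent.TH504.CB Pool.Agent.TH131.GHC Pool.Agent.X311 Pool.Agent.U228.MP Pool.Agent.U46.EX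

noncomputable section

theorem ab_of_indep {g : ℕ} (K : Subfield ℂ) {Z : Matrix (Fin g) (Fin g) ℂ}
    (hZ : Zᵀ = Z) (hpos : (Z.map Complex.im).PosDef)
    (p : Fin (excDim g 0 + 1) → Fin g × Fin g)
    (hp : AlgebraicIndependent K fun s => Z (p s).1 (p s).2) : IsGoodAbelianOver K Z := by
  obtain ⟨M, hM⟩ : ∃ M, M = max (g ^ 2) ((0 + 1) ^ 2 + 2 * (g - 0 - 1) * (g - 0)) := ⟨_, rfl⟩
  have he : excDim g 0 = M / 4 := by rw [hM]; rfl
  have h1 : g ^ 2 ≤ M := hM ▸ le_max_left _ _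
  have h2 : (0 + 1) ^ 2 + 2 * (g - 0 - 1) * (g - 0) ≤ M := hM ▸ le_max_right _ _
  have h4 : g ^ 2 < 4 * (excDim g 0 + 1) := by omega
  have h5 : (0 + 1) ^ 2 + 2 * (g - 0 - 1) * (g - 0) < 4 * (excDim g 0 + 1) := by omega
  obtain ⟨B, c, hB, hc, h6, h7, h8, h9⟩ := many_periods Z hZ hpos K p hp
  have h10 : c = 0 := Nat.le_zero.1 (h6 0 h4 h5)
  intro v V hV n
  have key : HodgeClassesOnTimes Z n V := fun F hF => h9 h10 v V hV n F hF
  refine ⟨key, fun absY abs hcl hall F hF => ?_⟩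
  refine (Submodule.span_le.2 ?_ : crossSpan (perPow Z n) V ≤ abs) (key F hF)
  rintro G ⟨k, f, x, hf, hx, rfl⟩
  exact hcl k f hf x (hall x hx)

theorem exceptional_ab {g d : ℕ} {U : Set (Fin d → ℂ)} (K : Subfield ℂ) [Countable K]
    {Z : (Fin d → ℂ) → Matrix (Fin g) (Fin g) ℂ} (hZ : IsFamily U Z) (r : ℕ) :
    InSubmanifolds U {t | t ∈ U ∧ r ≤ moduli Z t ∧ ¬ IsGoodAbelianOver K (Z t)}
      (r - excDim g 0) := by
  obtain ⟨f, hf, h⟩ := exceptional (K := K) Z hZ.1 (excDim g 0) r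
  refine ⟨f, hf, ?_⟩
  rintro t ⟨ht, hr, hex⟩
  exact h t ht hr fun p hp => hex (ab_of_indep K (hZ.2 t ht).1 (hZ.2 t ht).2 p hp)

theorem exceptional_ab_fixed {g d v : ℕ} {U : Set (Fin d → ℂ)}
    {Z : (Fin d → ℂ) → Matrix (Fin g) (Fin g) ℂ} (hZ : IsFamily U Z) (V : Coh v) (r : ℕ) :
    InSubmanifolds U {t | t ∈ U ∧ r ≤ moduli Z t ∧ ¬ IsGoodAbelian (Z t) V}
      (r - excDim g 0) := by
  obtain ⟨S, hS⟩ : ∃ S : Set ℂ, S = Set.range fun p : Fin v × Fin v => V.z p.1 p.2 := ⟨_, rfl⟩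
  have hcount : Countable (Subfield.closure S) := by
    rw [← Cardinal.mk_le_aleph0_iff]
    refine (Subfield.cardinalMk_closure_le_max S).trans (max_le ?_ le_rfl)
    have : Countable S := by
      rw [hS]
      exact (Set.countable_range _).to_subtype
    exact Cardinal.mk_le_aleph0
  obtain ⟨f, hf, h⟩ := exceptional_ab (Subfield.closure S) hZ r
  refine ⟨f, hf, ?_⟩
  rintro t ⟨ht, hr, hex⟩
  refine h t ⟨ht, hr, fun hg => hex (hg v V fun a b => Subfield.subset_closure ?_)⟩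
  rw [hS]
  exact ⟨(a, b), rfl⟩

end

end Pool.Agent.U46.K3
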