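import Mathlib
import Pool.Agent.U228.KP.Det
import Pool.Agent.U46.ExDefs

/-!
# Families of K3 surfaces and their products with an arbitrary variety: definitions

A holomorphic family of K3 surfaces over an open subset `U` of `ℂ ^ d` is given by its period vectors
`w t ∈ ℂ ^ N` (the classes of the holomorphic two-forms, in coordinates with respect to a basis of the
constant rational cohomology `H^2`, or of the orthogonal complement of a constant space of algebraic
classes), which are normalised by `w t e = 1`.
-/

set_option autoImplicit false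

namespace Pool.Agent.U46.K3

open Module Pool.Agent.W544.PG Pool.Agent.TH164.HC Pool.Agent.U228.KP

/-- The number `e(n)`: it is `n / 2 - 1` for even `n`, and `n / l - 2` for odd `n` with smallest prime
divisor `l` (and `0` if `n` is prime; truncated subtraction). The maximum for `n ≤ 22` is `10`, and the
maximum for odd `n ≤ 21` is `5`. -/
def excRank (n : ℕ) : ℕ := if Even n then n / 2 - 1 else n / n.minFac - 2

/-- `w` is a holomorphic family of period vectors on `U`, normalised by `w t e = 1`. -/
def IsPeriodFamily {N d : ℕ} (U : Set (Fin d → ℂ)) (w : (Fin d → ℂ) → Fin N → ℂ) (e : Fin N) :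
    Prop :=
  (∀ i, AnalyticOnNhd ℂ (fun t => w t i) U) ∧ ∀ t ∈ U, w t e = 1

/-- The derivative of the period vector. -/
noncomputable def periodDer {N d : ℕ} (w : (Fin d → ℂ) → Fin N → ℂ) (t : Fin d → ℂ) :
    (Fin d → ℂ) →ₗ[ℂ] (Fin N → ℂ) :=
  LinearMap.pi fun i => (fderiv ℂ (fun t => w t i) t : (Fin d → ℂ) →ₗ[ℂ] ℂ)

/-- The number of moduli at `t`: the rank of the derivative of the (normalised) period vector, that
is, of the Kodaira-Spencer map. -/
noncomputable def periodRank {N d : ℕ} (w : (Fin d → ℂ) → Fin N → ℂ) (t : Fin d → ℂ) : ℕ :=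
  finrank ℂ (LinearMap.range (periodDer w t))

/-- `T` is the transcendental part of the K3 surface with the period vector `w`: a polarised Hodge
structure of K3 type without Hodge classes, with an embedding `B` in the rational space `ℚ ^ N` which
maps a vector of type `(1, -1)` to `w`. -/
def IsTranscendental {N n : ℕ} (w : Fin N → ℂ) (T : HS n) : Prop :=
  K3Type T ∧ ∃ (B : Matrix (Fin N) (Fin n) ℚ) (u : Fin n → ℂ),
    (∀ c : Fin n → ℚ, B.mulVec c = 0 → c = 0) ∧ T.x.mulVec u = u ∧
      (B.map fun q : ℚ => (q : ℂ)).mulVec u = w

/-- Let `X` be the K3 surface with transcendental part `T`, and let `V` be the even cohomology of a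
smooth projective variety `Y` (degree `2 k` with the twist `k`). For all `m` the Hodge classes on
`X ^ m × Y` (with `s` algebraic classes on `X`) are the sums of products of a Hodge class on `X ^ m` (itself
a combination of products of algebraic classes on `X`, transcendental parts of diagonals and at most one
determinant class of `T`) and a Hodge class on `Y`; the determinant class is not needed for the classes
with less than `n` factors in `T`. -/
def HodgeSplits {n v : ℕ} (T : HS n) (V : HZ v) : Prop :=
  ∀ (s m : ℕ) (F : (Fin m → Fin s ⊕ Fin n) → Fin v → ℚ), IsHodgeZ T V F →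
    F ∈ products (T.alg s m ⊔ algDet T s m) V.Hdg ∧
      ((∀ J b, F J b ≠ 0 → (Finset.univ.filter fun j => (J j).isRight = true).card < n) →
        F ∈ products (T.alg s m) V.Hdg)

/-- If all Hodge classes on `Y` are absolute Hodge classes (elements of `absY`) then all Hodge classes on
`X ^ m × Y` are absolute Hodge classes (elements of `abs`), for all `m`. All that is used is that the
products of a class on `X ^ m` as above (they are absolute Hodge classes by the theorem of Deligne) and an
absolute Hodge class on `Y` are absolute Hodge classes. -/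
def AbsoluteFromY {n v : ℕ} (T : HS n) (V : HZ v) : Prop :=
  ∀ (s m : ℕ) (absY : Submodule ℚ (Fin v → ℚ))
    (abs : Submodule ℚ ((Fin m → Fin s ⊕ Fin n) → Fin v → ℚ)),
    (∀ α ∈ T.alg s m ⊔ algDet T s m, ∀ y ∈ absY, (fun J b => α J * y b) ∈ abs) →
      V.Hdg ≤ absY → ∀ F, IsHodgeZ T V F → F ∈ abs

/-- The K3 surface with the period vector `w` is good for `Y`: if its transcendental part has the rank
`n` then `HodgeSplits` and `AbsoluteFromY` hold. -/
def IsGoodK3 {N v : ℕ} (n : ℕ) (w : Fin N → ℂ) (V : HZ v) : Prop :=
  ∀ T : HS n, IsTranscendental w T → HodgeSplits T V ∧ AbsoluteFromY T V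

/-- The K3 surface is good for all `Y` with Hodge operator over `K`. -/
def IsGoodK3Over {N : ℕ} (K : Subfield ℂ) (n : ℕ) (w : Fin N → ℂ) : Prop :=
  ∀ (v : ℕ) (V : HZ v), (∀ a b, V.z a b ∈ K) → IsGoodK3 n w V

end Pool.Agent.U46.K3
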