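import Mathlib

/-!
# Algebraically independent elements of a field generated by finitely many numbers
-/

set_option autoImplicit false

namespace Pool.Agent.U46.K3

open IntermediateField

/-- If the field generated by the numbers `y j` over `K` contains `D` algebraically independent
numbers then `D` of the `y j` are algebraically independent. -/
theorem transfer {K : Type} [Field K] [Algebra K ℂ] {n D : ℕ} (y : Fin n → ℂ) (x : Fin D → ℂ)
    (hx : AlgebraicIndependent K x) (hxy : ∀ i, x i ∈ adjoin K (Set.range y)) :
    ∃ p : Fin D → Fin n, AlgebraicIndependent K fun s => y (p s) := by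
  classical
  obtain ⟨L, hL⟩ : ∃ L : IntermediateField K ℂ, L = adjoin K (Set.range y) := ⟨_, rfl⟩
  have hy : ∀ j, y j ∈ L := fun j => by
    rw [hL]
    exact subset_adjoin K _ ⟨j, rfl⟩
  let y' : Fin n → L := fun j => ⟨y j, hy j⟩
  have htop : adjoin K (Set.range y') = ⊤ := by
    refine map_injective L.val ?_
    rw [adjoin_map]
    have h1 : (L.val '' Set.range y') = Set.range y := by
      rw [← Set.range_comp]
      rfl
    rw [h1, ← hL]
    ext z
    constructor
    · intro hz
      exact ⟨⟨z, hz⟩, trivial, rfl⟩
    · rintro ⟨z', -, rfl⟩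
      exact z'.2
  have halg : Algebra.IsAlgebraic (Algebra.adjoin K (Set.range y')) L := by
    refine ⟨fun z => ?_⟩
    have hz : z ∈ adjoin K (Set.range y') := by
      rw [htop]
      trivial
    obtain ⟨a, ha, b, hb, rfl⟩ := mem_adjoin_iff_div.1 hz
    have h1 : IsAlgebraic (Algebra.adjoin K (Set.range y')) a :=
      isAlgebraic_algebraMap (⟨a, ha⟩ : Algebra.adjoin K (Set.range y'))
    have h2 : IsAlgebraic (Algebra.adjoin K (Set.range y')) b :=
      isAlgebraic_algebraMap (⟨b, hb⟩ : Algebra.adjoin K (Set.range y'))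
    rw [div_eq_mul_inv]
    exact h1.mul h2.inv
  obtain ⟨T, hT1, hT2⟩ := exists_isTranscendenceBasis_subset (R := K) (A := L) (Set.range y')
  have hfin : T.Finite := (Set.finite_range y').subset hT1
  have := hfin.fintype
  let x' : Fin D → L := fun i => ⟨x i, by rw [hL]; exact hxy i⟩
  have hx' : AlgebraicIndependent K x' := AlgebraicIndependent.of_comp L.val hx
  have hcard : D ≤ Fintype.card T := by
    have h1 := hx'.cardinalMk_le_trdeg
    have h2 : Cardinal.mk T = Algebra.trdeg K L := hT2.cardinalMk_eq_trdeg
    rw [← h2, Cardinal.mk_fintype, Cardinal.mk_fintype, Fintype.card_fin, Nat.cast_le] at h1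
    exact h1
  have e : Fin (Fintype.card T) ≃ T := (Fintype.equivFin T).symm
  have hq : ∀ i : Fin D, ∃ j, y' j = (e (Fin.castLE hcard i) : L) := fun i =>
    hT1 (e (Fin.castLE hcard i)).2
  choose p hp using hq
  refine ⟨p, ?_⟩
  have h3 : AlgebraicIndependent K (fun i : Fin D => ((e (Fin.castLE hcard i) : T) : L)) :=
    hT2.1.comp (fun i : Fin D => e (Fin.castLE hcard i))
      (e.injective.comp (Fin.castLE_injective hcard))
  have h4 := h3.map' (f := L.val) Subtype.val_injective
  have h5 : (fun s => y (p s)) = (L.val ∘ fun i : Fin D => ((e (Fin.castLE hcard i) : T) : L)) := by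
    funext s
    change y (p s) = L.val (e (Fin.castLE hcard s) : L)
    rw [← hp]
    rfl
  rw [h5]
  exact h4

end Pool.Agent.U46.K3
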