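import Mathlib
import Pool.Agent.U46.EX2
import Pool.Agent.U46.K3.Tr
import Pool.Agent.U46.K3.Defs

/-!
# The exceptional members of a family of K3 surfaces
-/

set_option autoImplicit false
set_option maxHeartbeats 400000

namespace Pool.Agent.U46.K3

open Module Pool.Agent.W544.PG Pool.Agent.TH164.HC Pool.Agent.U228.KP Pool.Agent.U46.EX
  Pool.Agent.TH504.VL

noncomputable section

theorem enough (n : ℕ) (hn : 3 ≤ n) : EnoughPeriods n (excRank n + 1) := by
  unfold EnoughPeriods excRank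
  by_cases h : Even n
  · rw [if_pos h]
    exact Or.inl (by omega)
  · rw [if_neg h]
    refine Or.inr ⟨Nat.not_even_iff_odd.1 h, ?_⟩
    have h1 : 0 < n.minFac := Nat.minFac_pos n
    have h2 : n.minFac * (n / n.minFac) = n := Nat.mul_div_cancel' n.minFac_dvd
    have h3 : n / n.minFac < n / n.minFac - 2 + 1 + 2 := by omega
    calc n = n.minFac * (n / n.minFac) := h2.symm
      _ < n.minFac * (n / n.minFac - 2 + 1 + 2) := (Nat.mul_lt_mul_left h1).2 h3

/-- The periods of the transcendental part generate the same field. -/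
theorem periods_of {N n D : ℕ} (K : Subfield ℂ) {w : Fin N → ℂ} {e : Fin N} (he : w e = 1)
    {B : Matrix (Fin N) (Fin n) ℚ} {u : Fin n → ℂ}
    (hB : (B.map fun q : ℚ => (q : ℂ)).mulVec u = w) (p : Fin D → Fin N)
    (hp : AlgebraicIndependent K fun s => w (p s)) :
    ∃ (e' : Fin n) (p' : Fin D → Fin n), u e' ≠ 0 ∧
      AlgebraicIndependent K fun s => u (p' s) / u e' := by
  have hw : ∀ i, w i = ∑ j, (B i j : ℂ) * u j := fun i => by
    rw [← hB]
    rfl
  obtain ⟨e', he'⟩ : ∃ j, u j ≠ 0 := by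
    by_contra hcon
    push Not at hcon
    have h1 := hw e
    rw [he] at h1
    simp only [hcon, mul_zero, Finset.sum_const_zero] at h1
    exact one_ne_zero h1
  obtain ⟨y, hy⟩ : ∃ y : Fin n → ℂ, y = fun j => u j / u e' := ⟨_, rfl⟩
  have hyL : ∀ j, y j ∈ IntermediateField.adjoin K (Set.range y) := fun j =>
    IntermediateField.subset_adjoin K _ ⟨j, rfl⟩
  have hq : ∀ q : ℚ, (q : ℂ) ∈ IntermediateField.adjoin K (Set.range y) := fun q => by
    have h1 : ((algebraMap K ℂ) (q : K)) = (q : ℂ) := map_ratCast _ q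
    rw [← h1]
    exact IntermediateField.algebraMap_mem _ _
  have hsum : ∀ i, ∑ j, (B i j : ℂ) * y j ∈ IntermediateField.adjoin K (Set.range y) := fun i =>
    sum_mem fun j _ => mul_mem (hq _) (hyL j)
  have hu : ∀ j, u j = u e' * y j := fun j => by
    rw [hy]
    field_simp
  have hwi : ∀ i, w i = u e' * ∑ j, (B i j : ℂ) * y j := fun i => by
    rw [hw, Finset.mul_sum]
    refine Finset.sum_congr rfl fun j _ => ?_
    rw [hu j]
    ring
  have hue : u e' ∈ IntermediateField.adjoin K (Set.range y) := by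
    have h1 := hwi e
    rw [he] at h1
    have h2 : u e' = (∑ j, (B e j : ℂ) * y j)⁻¹ := eq_inv_of_mul_eq_one_left h1.symm
    rw [h2]
    exact inv_mem (hsum e)
  obtain ⟨p', hp'⟩ := transfer (K := K) y (fun s => w (p s)) hp fun i => by
    rw [hwi]
    exact mul_mem hue (hsum _)
  refine ⟨e', p', he', ?_⟩
  rw [hy] at hp'
  exact hp'

theorem absolute_of_splits {n v : ℕ} {T : HS n} {V : HZ v} (h : HodgeSplits T V) :
    AbsoluteFromY T V := by
  intro s m absY abs hcl hall F hF
  refine (Submodule.span_le.2 ?_ : products (T.alg s m ⊔ algDet T s m) V.Hdg ≤ abs) (h s m F hF).1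
  rintro G ⟨α, hα, y, hy, rfl⟩
  exact hcl α hα y (hall hy)

/-- A K3 surface with many independent periods is good. -/
theorem good_of_indep {N n : ℕ} (hn : 3 ≤ n) (hn4 : n ≠ 4) (K : Subfield ℂ) {w : Fin N → ℂ}
    {e : Fin N} (he : w e = 1) (p : Fin (excRank n + 1) → Fin N)
    (hp : AlgebraicIndependent K fun s => w (p s)) : IsGoodK3Over K n w := by
  intro v V hV T hT
  obtain ⟨hT1, B, u, -, hu, hB⟩ := hT
  obtain ⟨e', p', he', hp'⟩ := periods_of K he hB p hp
  have h := (many_periods_all hn hT1 hu he' K p' hp' (enough n hn)).2.2 (Nat.succ_pos _) hn4 v V hV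
  have hs : HodgeSplits T V := h
  exact ⟨hs, absolute_of_splits hs⟩

theorem finrank_eq {N d : ℕ} (e : Fin N) (w : (Fin d → ℂ) → Fin N → ℂ) (t : Fin d → ℂ) :
    finrank ℂ (LinearMap.range (ksMap (fun t => Matrix.of fun i (_ : Fin N) => w t i) t)) =
      periodRank w t := by
  unfold periodRank
  have h1 : LinearMap.ker (ksMap (fun t => Matrix.of fun i (_ : Fin N) => w t i) t) =
      LinearMap.ker (periodDer w t) := by
    ext x
    rw [LinearMap.mem_ker, LinearMap.mem_ker]
    constructor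
    · intro h
      funext i
      exact congrFun (congrFun h i) e
    · intro h
      ext i j
      exact congrFun h i
  have h2 := (ksMap (fun t => Matrix.of fun i (_ : Fin N) => w t i) t).finrank_range_add_finrank_ker
  have h3 := (periodDer w t).finrank_range_add_finrank_ker
  rw [h1] at h2
  omega

theorem exceptional_over {N d n : ℕ} (hn : 3 ≤ n) (hn4 : n ≠ 4) (K : Subfield ℂ) [Countable K]
    {U : Set (Fin d → ℂ)} {w : (Fin d → ℂ) → Fin N → ℂ} {e : Fin N} (hw : IsPeriodFamily U w e)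
    (r : ℕ) :
    InSubmanifolds U {t | t ∈ U ∧ r ≤ periodRank w t ∧ ¬ IsGoodK3Over K n (w t)}
      (r - excRank n) := by
  obtain ⟨f, hf, h⟩ := exceptional (K := K) (fun t => Matrix.of fun i (_ : Fin N) => w t i)
    (fun i _ => hw.1 i) (excRank n) r
  refine ⟨f, hf, ?_⟩
  rintro t ⟨ht, hr, hex⟩
  refine h t ht ?_ fun p hp => hex (good_of_indep hn hn4 K (hw.2 t ht) (fun s => (p s).1) hp)
  rw [finrank_eq e]
  exact hr

theorem exceptional_fixed {N d n v : ℕ} (hn : 3 ≤ n) (hn4 : n ≠ 4) {U : Set (Fin d → ℂ)}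
    {w : (Fin d → ℂ) → Fin N → ℂ} {e : Fin N} (hw : IsPeriodFamily U w e) (V : HZ v) (r : ℕ) :
    InSubmanifolds U {t | t ∈ U ∧ r ≤ periodRank w t ∧ ¬ IsGoodK3 n (w t) V}
      (r - excRank n) := by
  obtain ⟨S, hS⟩ : ∃ S : Set ℂ, S = Set.range fun p : Fin v × Fin v => V.z p.1 p.2 := ⟨_, rfl⟩
  have hcount : Countable (Subfield.closure S) := by
    rw [← Cardinal.mk_le_aleph0_iff]
    refine (Subfield.cardinalMk_closure_le_max S).trans (max_le ?_ le_rfl)
    have : Countable S := by
      rw [hS]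
      exact (Set.countable_range _).to_subtype
    exact Cardinal.mk_le_aleph0
  obtain ⟨f, hf, h⟩ := exceptional_over hn hn4 (Subfield.closure S) hw r
  refine ⟨f, hf, ?_⟩
  rintro t ⟨ht, hr, hex⟩
  refine h t ⟨ht, hr, fun hg => hex (hg v V fun a b => Subfield.subset_closure ?_)⟩
  rw [hS]
  exact ⟨(a, b), rfl⟩

end

end Pool.Agent.U46.K3
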